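import Pool.Agent.helper16.EXC.Spec3

/-!
# Row en3:ZEQ (MP_561ff4_al): the action of the root elements on the image of the matrices of size 3
-/

set_option autoImplicit false

open Finset

namespace Pool.Agent.EXC

theorem ZEQ_add {n : ℕ} (C : Matrix (Fin n) (Fin n) ℤ) [IsC C] {F : Type} [Field F] (e1 e2 f1 f2 : Lm C F)
    (A B : Matrix (Fin 3) (Fin 3) F) : i3 C e1 e2 f1 f2 (A + B) = i3 C e1 e2 f1 f2 A + i3 C e1 e2 f1 f2 B := by
  unfold i3
  simp only [Matrix.add_apply]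
  module

theorem ZEQ_smul {n : ℕ} (C : Matrix (Fin n) (Fin n) ℤ) [IsC C] {F : Type} [Field F] (e1 e2 f1 f2 : Lm C F) (c : F)
    (A : Matrix (Fin 3) (Fin 3) F) : i3 C e1 e2 f1 f2 (c • A) = c • i3 C e1 e2 f1 f2 A := by
  unfold i3
  simp only [Matrix.smul_apply, smul_eq_mul]
  module

theorem ZEQ_s01 {n : ℕ} (C : Matrix (Fin n) (Fin n) ℤ) [IsC C] {F : Type} [Field F] (e1 e2 f1 f2 : Lm C F) (c : F) :
    i3 C e1 e2 f1 f2 (Matrix.single 0 1 c) = c • e1 := by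
  unfold i3
  simp [Matrix.single]

theorem ZEQ_s12 {n : ℕ} (C : Matrix (Fin n) (Fin n) ℤ) [IsC C] {F : Type} [Field F] (e1 e2 f1 f2 : Lm C F) (c : F) :
    i3 C e1 e2 f1 f2 (Matrix.single 1 2 c) = c • e2 := by
  unfold i3
  simp [Matrix.single]

theorem ZEQ_m01 {F : Type} [Field F] (t : F) (M : Matrix (Fin 3) (Fin 3) F) :
    (1 + Matrix.single 0 1 t) * M * (1 - Matrix.single 0 1 t) =
      M + t • (Matrix.single 0 1 1 * M - M * Matrix.single 0 1 1) + Matrix.single 0 1 (-(t ^ 2 * M 1 0)) := by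
  ext i j
  fin_cases i <;> fin_cases j <;>
    simp [Matrix.mul_apply, Fin.sum_univ_three, Matrix.single, Matrix.one_apply] <;> ring

theorem ZEQ_m12 {F : Type} [Field F] (t : F) (M : Matrix (Fin 3) (Fin 3) F) :
    (1 + Matrix.single 1 2 t) * M * (1 - Matrix.single 1 2 t) =
      M + t • (Matrix.single 1 2 1 * M - M * Matrix.single 1 2 1) + Matrix.single 1 2 (-(t ^ 2 * M 2 1)) := by
  ext i j
  fin_cases i <;> fin_cases j <;>
    simp [Matrix.mul_apply, Fin.sum_univ_three, Matrix.single, Matrix.one_apply] <;> ring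

theorem ZEQ_e (hZTB : ZTB_stmt) {n : ℕ} (C : Matrix (Fin n) (Fin n) ℤ) [IsC C] {F : Type} [Field F]
    (e1 e2 f1 f2 : Lm C F) (hS : S3 C e1 e2 f1 f2) (t : F) (M : Matrix (Fin 3) (Fin 3) F) (hM : M.trace = 0) :
    xe C e1 t (i3 C e1 e2 f1 f2 M) = i3 C e1 e2 f1 f2 ((1 + Matrix.single 0 1 t) * M * (1 - Matrix.single 0 1 t)) ∧
    xe C e2 t (i3 C e1 e2 f1 f2 M) = i3 C e1 e2 f1 f2 ((1 + Matrix.single 1 2 t) * M * (1 - Matrix.single 1 2 t)) := by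
  obtain ⟨h1, h2, h3, h4⟩ := hZTB n C F e1 e2 f1 f2 hS M hM
  constructor
  · unfold xe
    rw [h1, h3, ZEQ_m01, ZEQ_add, ZEQ_add, ZEQ_smul, ZEQ_s01]
    congr 1
    congr 1
    ring
  · unfold xe
    rw [h2, h4, ZEQ_m12, ZEQ_add, ZEQ_add, ZEQ_smul, ZEQ_s12]
    congr 1
    congr 1
    ring

theorem ZEQ_sym {n : ℕ} (C : Matrix (Fin n) (Fin n) ℤ) [IsC C] {F : Type} [Field F] (hfm : ∀ v w : Lm C F, fm C v w = fm C w v)
    (e1 e2 f1 f2 : Lm C F) (hS : S3 C e1 e2 f1 f2) : S3 C f2 f1 e2 e1 where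
  x1 := hS.y2
  x2 := hS.y1
  y1 := hS.x2
  y2 := hS.x1
  a1 := by rw [hfm]; exact hS.a2
  a2 := by rw [hfm]; exact hS.a1
  b1 := by rw [hfm]; exact hS.b2
  b2 := by rw [hfm]; exact hS.b1
  c1 := hS.c2
  c2 := hS.c1
  c3 := hS.c4
  c4 := hS.c3

theorem ZEQ_i3 {n : ℕ} (C : Matrix (Fin n) (Fin n) ℤ) [IsC C] {F : Type} [Field F] (hbr : ∀ v w : Lm C F, br C v w = -br C w v)
    (e1 e2 f1 f2 : Lm C F) (M : Matrix (Fin 3) (Fin 3) F) (hM : M.trace = 0) :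
    i3 C f2 f1 e2 e1 (M.submatrix Fin.rev Fin.rev) = i3 C e1 e2 f1 f2 M := by
  have h : M 2 2 = -(M 0 0 + M 1 1) := by
    rw [Matrix.trace_fin_three] at hM
    linear_combination hM
  unfold i3
  have r0 : Fin.rev (0 : Fin 3) = 2 := rfl
  have r1 : Fin.rev (1 : Fin 3) = 1 := rfl
  have r2 : Fin.rev (2 : Fin 3) = 0 := rfl
  simp only [Matrix.submatrix_apply, r0, r1, r2]
  rw [hbr f2 e2, hbr f1 e1, h]
  module

theorem ZEQ_t01 {F : Type} [Field F] (t : F) (M : Matrix (Fin 3) (Fin 3) F) (hM : M.trace = 0) :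
    ((1 + Matrix.single 2 1 t) * M * (1 - Matrix.single 2 1 t)).trace = 0 := by
  have h : (1 - Matrix.single 2 1 t : Matrix (Fin 3) (Fin 3) F) * (1 + Matrix.single 2 1 t) = 1 := by
    ext i j
    fin_cases i <;> fin_cases j <;>
      simp [Matrix.mul_apply, Fin.sum_univ_three, Matrix.single, Matrix.one_apply]
  rw [Matrix.trace_mul_comm, ← mul_assoc, h, one_mul, hM]

theorem ZEQ_t12 {F : Type} [Field F] (t : F) (M : Matrix (Fin 3) (Fin 3) F) (hM : M.trace = 0) :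
    ((1 + Matrix.single 1 0 t) * M * (1 - Matrix.single 1 0 t)).trace = 0 := by
  have h : (1 - Matrix.single 1 0 t : Matrix (Fin 3) (Fin 3) F) * (1 + Matrix.single 1 0 t) = 1 := by
    ext i j
    fin_cases i <;> fin_cases j <;>
      simp [Matrix.mul_apply, Fin.sum_univ_three, Matrix.single, Matrix.one_apply]
  rw [Matrix.trace_mul_comm, ← mul_assoc, h, one_mul, hM]

theorem ZEQ_r01 {F : Type} [Field F] (t : F) (M : Matrix (Fin 3) (Fin 3) F) :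
    ((1 + Matrix.single 2 1 t) * M * (1 - Matrix.single 2 1 t)).submatrix Fin.rev Fin.rev =
      (1 + Matrix.single 0 1 t) * M.submatrix Fin.rev Fin.rev * (1 - Matrix.single 0 1 t) := by
  have r0 : Fin.rev (0 : Fin 3) = 2 := rfl
  have r1 : Fin.rev (1 : Fin 3) = 1 := rfl
  have r2 : Fin.rev (2 : Fin 3) = 0 := rfl
  ext i j
  fin_cases i <;> fin_cases j <;>
    simp [Matrix.mul_apply, Fin.sum_univ_three, Matrix.single, Matrix.one_apply, r0, r1, r2] <;> ring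

theorem ZEQ_r12 {F : Type} [Field F] (t : F) (M : Matrix (Fin 3) (Fin 3) F) :
    ((1 + Matrix.single 1 0 t) * M * (1 - Matrix.single 1 0 t)).submatrix Fin.rev Fin.rev =
      (1 + Matrix.single 1 2 t) * M.submatrix Fin.rev Fin.rev * (1 - Matrix.single 1 2 t) := by
  have r0 : Fin.rev (0 : Fin 3) = 2 := rfl
  have r1 : Fin.rev (1 : Fin 3) = 1 := rfl
  have r2 : Fin.rev (2 : Fin 3) = 0 := rfl
  ext i j
  fin_cases i <;> fin_cases j <;>
    simp [Matrix.mul_apply, Fin.sum_univ_three, Matrix.single, Matrix.one_apply, r0, r1, r2] <;> ring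

theorem ZEQ (hZTB : ZTB_stmt) (hINV : INV_stmt) : ZEQ_stmt := by
  intro n C _ F _ e1 e2 f1 f2 hS t M hM
  obtain ⟨_, _, hfm, hbr, _⟩ := hINV n C F
  obtain ⟨g1, g2⟩ := ZEQ_e hZTB C e1 e2 f1 f2 hS t M hM
  have hM' : (M.submatrix Fin.rev Fin.rev).trace = 0 := by
    rw [Matrix.trace_fin_three] at hM ⊢
    have r0 : Fin.rev (0 : Fin 3) = 2 := rfl
    have r1 : Fin.rev (1 : Fin 3) = 1 := rfl
    have r2 : Fin.rev (2 : Fin 3) = 0 := rfl
    simp only [Matrix.submatrix_apply, r0, r1, r2]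
    linear_combination hM
  obtain ⟨g3, g4⟩ := ZEQ_e hZTB C f2 f1 e2 e1 (ZEQ_sym C hfm e1 e2 f1 f2 hS) t _ hM'
  rw [ZEQ_i3 C hbr e1 e2 f1 f2 M hM] at g3 g4
  rw [← ZEQ_r01, ZEQ_i3 C hbr e1 e2 f1 f2 _ (ZEQ_t01 t M hM)] at g3
  rw [← ZEQ_r12, ZEQ_i3 C hbr e1 e2 f1 f2 _ (ZEQ_t12 t M hM)] at g4
  exact ⟨g1, g2, g4, g3⟩

end Pool.Agent.EXC
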